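import Pool.Agent.Lib.H70.Top.Rational
import Pool.Agent.Lib.H70.Top.I2

/-!
MP_34a9b4_al: the degree of the topological subalgebra zeta function of any non-associative
algebra over `ℤ` of rank `d` is at most `-d`. The definitions are in
`Pool/Agent/Lib/H70/Top/Defs.lean`.
-/

namespace Pool.Agent.Results.MP_34a9b4_al.DegreeUpperBound

open Pool.Agent.Lib.H70.Top

/-- For every non-associative algebra over `ℤ`, free of rank `d`, every rational function with the
defining property of its topological subalgebra zeta function is `0` or has degree at most `-d`. -/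
theorem result (d : ℕ) (c : Fin d → Fin d → Fin d → ℤ) (R : RatFunc ℚ) (hR : IsTop c R) :
    R = 0 ∨ R.intDegree ≤ -(d : ℤ) := by
  obtain ⟨B, hB⟩ := hR 2 ⟨Nat.prime_two⟩
  obtain ⟨p0, J, M, hJ, hrat⟩ := uniform_rationality c
  obtain ⟨p, hp, hpp⟩ := Nat.exists_infinite_primes (p0 + 8 + B.sup id + 1)
  have hpB : p ∉ B := by
    intro h
    have : p ≤ B.sup id := Finset.le_sup (f := id) h
    omega
  have hF : Fact p.Prime := ⟨hpp⟩
  have hF2 : Fact (Nat.Prime 2) := ⟨Nat.prime_two⟩
  obtain ⟨D, hD, S, htop⟩ := hB p ⟨hpp⟩ hpB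
  exact degree_le c p 2 (by omega) D hD S R htop J hJ M
    (fun f hf => hrat p ⟨hpp⟩ (by omega) f hf)

end Pool.Agent.Results.MP_34a9b4_al.DegreeUpperBound
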